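import Pool.Agent.H252.MD.Iface
import Pool.Graph.R_pool_sql_team_seeded_620a6dc7.H107_ZS.TMUL

/-!
# MD-VEL: the element `v` with prescribed compressions (MP_c00d13_an)
-/

set_option autoImplicit false
set_option linter.unusedSectionVars false

namespace Pool.Agent.H947.MDVEL

open Filter Topology Matrix
open Pool.Agent.H107ZS Pool.Agent.H327R4.Pure Pool.Agent.H252.MD
open scoped CStarAlgebra ComplexOrder

noncomputable section

section

variable {X : Type} [TopologicalSpace X] [MulAction Zm X]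

theorem zt_smul (i j : ℤ) (x : X) : zt i • zt j • x = zt (i + j) • x := by
  rw [smul_smul]; rfl

theorem zt_zero_smul (x : X) : zt 0 • x = x := by
  show (1 : Zm) • x = x
  exact one_smul _ x

/-- no weight for blocks with a cut inside -/
theorem psi_zero (φ : C(X, ℝ)) (L : ℕ) (p m : ℤ) (x : X) (h1 : p < m) (h2 : m < p + L)
    (hm : φ (zt m • x) = 1) : psi φ L (zt p • x) = 0 := by
  obtain ⟨d, hd⟩ : ∃ d : ℕ, (d : ℤ) = m - p := ⟨(m - p).toNat, by omega⟩
  have hd1 : d ∈ Finset.Ico 1 L := by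
    rw [Finset.mem_Ico]; omega
  have h3 : (∏ i ∈ Finset.Ico 1 L, (1 - φ (zt (i : ℤ) • zt p • x))) = 0 := by
    refine Finset.prod_eq_zero hd1 ?_
    rw [zt_smul, hd, show m - p + p = m by ring, hm, sub_self]
  unfold psi
  rw [h3]; ring

variable [CompactSpace X] [ContinuousConstSMul Zm X]

/-- the weight as a continuous function -/
def psiC (φ : C(X, ℝ)) (L : ℕ) : C(X, ℂ) :=
  ⟨fun x => ((psi φ L x : ℝ) : ℂ), by
    unfold psi
    have h1 : ∀ i : ℕ, Continuous fun x : X => φ (zt (i : ℤ) • x) := fun i =>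
      φ.continuous.comp (continuous_const_smul _)
    refine Complex.continuous_ofReal.comp ?_
    refine (φ.continuous.mul ?_).mul (h1 L)
    exact continuous_finsetProd _ fun i _ => continuous_const.sub (h1 i)⟩

variable {B : Type} [CStarAlgebra B] {n : ℕ}
  {ι : C(X, ℂ) →⋆ₐ[ℂ] B} {u : Zm →* unitary B} {e : Fin n → Fin n → B}
  {E : Fin n → Fin n → B →L[ℂ] C(X, ℂ)}

/-- the element -/
def vel (ι : C(X, ℂ) →⋆ₐ[ℂ] B) (u : Zm →* unitary B) (e : Fin n → Fin n → B) (φ : C(X, ℝ))
    (Lmax : ℕ) (c : (L : ℕ) → Matrix (Fin n × Fin L) (Fin n × Fin L) ℂ) : B :=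
  ∑ L ∈ Finset.Icc 1 Lmax, ∑ p : Fin n × Fin L, ∑ q : Fin n × Fin L,
    c L p q • mon ι u e ((psiC φ L).comp (tr (zt (-((p.2 : ℕ) : ℤ))))) p.1 q.1
      (zt (((p.2 : ℕ) : ℤ) - ((q.2 : ℕ) : ℤ)))

theorem entry (h : IsMCross ι u e E) (φ : C(X, ℝ))
    (Lmax : ℕ) (c : (L : ℕ) → Matrix (Fin n × Fin L) (Fin n × Fin L) ℂ) (k l : Fin n)
    (i j : ℤ) (x : X) :
    E k l (star (u (zt i) : B) * vel ι u e φ Lmax c * (u (zt j) : B)) x =
      ∑ L ∈ Finset.Icc 1 Lmax, ∑ s : Fin L, ∑ t : Fin L,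
        if i - ((s : ℕ) : ℤ) = j - ((t : ℕ) : ℤ) then
          (psi φ L (zt (i - ((s : ℕ) : ℤ)) • x) : ℂ) * c L (k, s) (l, t) else 0 := by
  classical
  unfold vel
  rw [Finset.mul_sum, Finset.sum_mul, map_sum, ContinuousMap.sum_apply]
  refine Finset.sum_congr rfl fun L _ => ?_
  have key : ∀ p q : Fin n × Fin L,
      E k l (star (u (zt i) : B) * (c L p q • mon ι u e
        ((psiC φ L).comp (tr (zt (-((p.2 : ℕ) : ℤ))))) p.1 q.1
        (zt (((p.2 : ℕ) : ℤ) - ((q.2 : ℕ) : ℤ)))) * (u (zt j) : B)) x =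
      if p.1 = k then (if q.1 = l then (if i - ((p.2 : ℕ) : ℤ) = j - ((q.2 : ℕ) : ℤ) then
          (psi φ L (zt (i - ((p.2 : ℕ) : ℤ)) • x) : ℂ) * c L (k, p.2) (l, q.2) else 0) else 0)
        else 0 := by
    intro p q
    rw [mul_smul_comm, smul_mul_assoc, map_smul, h.conj_mon, h.E_mon, ContinuousMap.smul_apply]
    have e1 : (zt i)⁻¹ * zt (((p.2 : ℕ) : ℤ) - ((q.2 : ℕ) : ℤ)) * zt j = 1 ↔
        i - ((p.2 : ℕ) : ℤ) = j - ((q.2 : ℕ) : ℤ) := by
      have e2 : (zt i)⁻¹ * zt (((p.2 : ℕ) : ℤ) - ((q.2 : ℕ) : ℤ)) * zt j =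
          zt (-i + (((p.2 : ℕ) : ℤ) - ((q.2 : ℕ) : ℤ)) + j) := rfl
      rw [e2]
      unfold zt
      rw [ofAdd_eq_one]
      constructor <;> intro h' <;> omega
    obtain ⟨p1, p2⟩ := p
    obtain ⟨q1, q2⟩ := q
    dsimp only at e1 ⊢
    by_cases h1 : p1 = k
    · subst h1
      by_cases h2 : q1 = l
      · subst h2
        by_cases h3 : i - ((p2 : ℕ) : ℤ) = j - ((q2 : ℕ) : ℤ)
        · rw [if_pos ⟨rfl, rfl, e1.2 h3⟩, if_pos rfl, if_pos rfl, if_pos h3, smul_eq_mul]
          rw [mul_comm]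
          congr 1
          show ((psi φ L (zt (-((p2 : ℕ) : ℤ)) • zt i • x) : ℝ) : ℂ) = _
          rw [zt_smul, show -((p2 : ℕ) : ℤ) + i = i - ((p2 : ℕ) : ℤ) by ring]
        · rw [if_neg fun hh => h3 (e1.1 hh.2.2), if_neg h3]; simp
      · rw [if_neg fun hh => h2 hh.2.1.symm, if_neg h2]; simp
    · rw [if_neg fun hh => h1 hh.1.symm, if_neg h1]; simp
  rw [Finset.mul_sum, Finset.sum_mul, map_sum, ContinuousMap.sum_apply]
  rw [Finset.sum_congr rfl fun p _ => by
    rw [Finset.mul_sum, Finset.sum_mul, map_sum, ContinuousMap.sum_apply,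
      Finset.sum_congr rfl fun q _ => key p q]]
  rw [Fintype.sum_prod_type, Finset.sum_eq_single k]
  · refine Finset.sum_congr rfl fun s _ => ?_
    rw [Fintype.sum_prod_type, Finset.sum_eq_single l]
    · refine Finset.sum_congr rfl fun t _ => ?_
      simp
    · intro b _ hb
      refine Finset.sum_eq_zero fun t _ => ?_
      dsimp only
      rw [if_neg hb]; simp
    · intro hl; exact absurd (Finset.mem_univ _) hl
  · intro b _ hb
    refine Finset.sum_eq_zero fun t _ => Finset.sum_eq_zero fun q _ => ?_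
    dsimp only
    rw [if_neg hb]
  · intro hk; exact absurd (Finset.mem_univ _) hk

theorem sum_block (φ : C(X, ℝ)) (L Λ : ℕ) (c : Matrix (Fin n × Fin L) (Fin n × Fin L) ℂ)
    (hL : 1 ≤ L) (hΛ : L ≤ Λ) (k l : Fin n) (i j : ℕ) (hi : i < Λ) (hj : j < Λ) (x : X)
    (h0 : φ x = 1) (h1 : φ (zt (Λ : ℤ) • x) = 1) :
    (∑ s : Fin L, ∑ t : Fin L,
        if (i : ℤ) - ((s : ℕ) : ℤ) = (j : ℤ) - ((t : ℕ) : ℤ) then
          (psi φ L (zt ((i : ℤ) - ((s : ℕ) : ℤ)) • x) : ℂ) * c (k, s) (l, t) else 0) =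
      ∑ s ∈ Finset.range (Λ + 1 - L),
        if h : (s ≤ i ∧ i < s + L) ∧ (s ≤ j ∧ j < s + L) then
          (psi φ L (zt (s : ℤ) • x) : ℂ) *
            c (k, ⟨i - s, by omega⟩) (l, ⟨j - s, by omega⟩) else 0 := by
  classical
  have hR : ∀ s' ∈ Finset.range (Λ + 1 - L),
      (if h : (s' ≤ i ∧ i < s' + L) ∧ (s' ≤ j ∧ j < s' + L) then
          (psi φ L (zt (s' : ℤ) • x) : ℂ) *
            c (k, ⟨i - s', by omega⟩) (l, ⟨j - s', by omega⟩) else 0) =
      ∑ s : Fin L, ∑ t : Fin L, if s' + (s : ℕ) = i ∧ s' + (t : ℕ) = j then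
        (psi φ L (zt (s' : ℤ) • x) : ℂ) * c (k, s) (l, t) else 0 := by
    intro s' _
    split_ifs with h
    · rw [Finset.sum_eq_single ⟨i - s', by omega⟩, Finset.sum_eq_single ⟨j - s', by omega⟩]
      · rw [if_pos]
        constructor
        · show s' + (i - s') = i
          omega
        · show s' + (j - s') = j
          omega
      · intro t _ ht
        rw [if_neg]
        rintro ⟨-, h3⟩
        apply ht
        apply Fin.ext
        show (t : ℕ) = j - s'
        omega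
      · intro hh; exact absurd (Finset.mem_univ _) hh
      · intro s _ hs
        refine Finset.sum_eq_zero fun t _ => ?_
        rw [if_neg]
        rintro ⟨h3, -⟩
        apply hs
        apply Fin.ext
        show (s : ℕ) = i - s'
        omega
      · intro hh; exact absurd (Finset.mem_univ _) hh
    · symm
      refine Finset.sum_eq_zero fun s _ => Finset.sum_eq_zero fun t _ => ?_
      rw [if_neg]
      rintro ⟨h3, h4⟩
      have h5 := s.2
      have h6 := t.2
      apply h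
      omega
  rw [Finset.sum_congr rfl hR]
  symm
  rw [Finset.sum_comm]
  refine Finset.sum_congr rfl fun s _ => ?_
  rw [Finset.sum_comm]
  refine Finset.sum_congr rfl fun t _ => ?_
  symm
  have h5 := s.2
  have h6 := t.2
  split_ifs with h
  · by_cases hp : 0 ≤ (i : ℤ) - ((s : ℕ) : ℤ) ∧ (i : ℤ) - ((s : ℕ) : ℤ) + L ≤ Λ
    · rw [Finset.sum_eq_single (i - (s : ℕ))]
      · rw [if_pos (by omega), show (((i - (s : ℕ) : ℕ)) : ℤ) = (i : ℤ) - ((s : ℕ) : ℤ) by omega]
      · intro s' _ hs'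
        rw [if_neg]
        omega
      · intro hh
        rw [Finset.mem_range] at hh
        omega
    · have h7 : psi φ L (zt ((i : ℤ) - ((s : ℕ) : ℤ)) • x) = 0 := by
        by_cases hq : 0 ≤ (i : ℤ) - ((s : ℕ) : ℤ)
        · exact psi_zero φ L _ Λ x (by omega) (by omega) h1
        · refine psi_zero φ L _ 0 x (by omega) (by omega) ?_
          rw [zt_zero_smul, h0]
      rw [h7]
      simp only [Complex.ofReal_zero, zero_mul]
      symm
      refine Finset.sum_eq_zero fun s' hs' => ?_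
      rw [Finset.mem_range] at hs'
      rw [if_neg]
      omega
  · symm
    refine Finset.sum_eq_zero fun s' _ => ?_
    rw [if_neg]
    omega

end

theorem s_VEL : Pool.Agent.H252.MD.S_VEL := by
  intro X _ _ _ _ B _ n ι u e E h φ Lmax c
  refine ⟨vel ι u e φ Lmax c, ?_, ?_⟩
  · intro x hx i j hi hj k l
    have h0 : φ (zt 0 • x) = 1 := by rw [zt_zero_smul, hx]
    constructor
    · rw [entry h]
      refine Finset.sum_eq_zero fun L _ => Finset.sum_eq_zero fun s _ =>
        Finset.sum_eq_zero fun t _ => ?_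
      have h5 := s.2
      have h6 := t.2
      split_ifs with h1
      · rw [psi_zero φ L _ 0 x (by omega) (by omega) h0]; simp
      · rfl
    · rw [entry h]
      refine Finset.sum_eq_zero fun L _ => Finset.sum_eq_zero fun s _ =>
        Finset.sum_eq_zero fun t _ => ?_
      have h5 := s.2
      have h6 := t.2
      split_ifs with h1
      · rw [psi_zero φ L _ 0 x (by omega) (by omega) h0]; simp
      · rfl
  · intro Λ h1 h2 x hx hx'
    have h0 : φ (zt 0 • x) = 1 := by rw [zt_zero_smul, hx]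
    ext ⟨k, i⟩ ⟨l, j⟩
    unfold W vW
    dsimp only
    rw [entry h]
    have hsub : Finset.Icc 1 Λ ⊆ Finset.Icc 1 Lmax := by
      intro L hL
      rw [Finset.mem_Icc] at hL ⊢
      omega
    rw [← Finset.sum_subset hsub]
    · refine Finset.sum_congr rfl fun L hL => ?_
      rw [Finset.mem_Icc] at hL
      exact sum_block φ L Λ (c L) hL.1 hL.2 k l i j i.2 j.2 x hx hx'
    · intro L hL hL'
      rw [Finset.mem_Icc] at hL hL'
      refine Finset.sum_eq_zero fun s _ => Finset.sum_eq_zero fun t _ => ?_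
      have h5 := s.2
      have h6 := t.2
      have h7 := i.2
      have h8 := j.2
      split_ifs with h3
      · have h7 : psi φ L (zt (((i : ℕ) : ℤ) - ((s : ℕ) : ℤ)) • x) = 0 := by
          by_cases hq : 0 ≤ ((i : ℕ) : ℤ) - ((s : ℕ) : ℤ)
          · exact psi_zero φ L _ Λ x (by omega) (by omega) hx'
          · exact psi_zero φ L _ 0 x (by omega) (by omega) h0
        rw [h7]; simp
      · rfl

end

end Pool.Agent.H947.MDVEL
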