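import Pool.Agent.H770.GS.TF

/-!
# TF19 (subtask 9929, owner helper770): the numerical inequality for `1/2 ≤ b ≤ 1/√3`

`t3_bound` : `(1+1/b)/sinc(bπ)^4 ≤ 3.11 (0.13534/v²) e^(2vb²π²)`.  `cell` : the inequality on an `ε`-interval
`[e0,e1]` from finitely many rational data (chords in `β = b²`), used for five cells.
-/

set_option autoImplicit false

open MeasureTheory Set intervalIntegral Filter Topology

namespace Pool.Agent.H947.TF19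

open Pool.Agent.H770.GS

lemma b_lt {b : ℝ} (hb : 1 / 2 ≤ b) (hb3 : b ^ 2 ≤ 1 / 3) : b ≤ 0.5774 := by
  nlinarith

lemma exp_neg_two : Real.exp (-2) ≤ 0.13534 := by
  have h := Real.exp_one_gt_d9
  have h2 : Real.exp 2 = Real.exp 1 * Real.exp 1 := by rw [← Real.exp_add]; norm_num
  rw [Real.exp_neg]
  have h3 : 7.389056 ≤ Real.exp 2 := by rw [h2]; nlinarith
  have h4 : 0 < Real.exp 2 := Real.exp_pos _
  rw [inv_le_comm₀ h4 (by norm_num)]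
  refine le_trans ?_ h3
  norm_num

lemma t3_bound {b v : ℝ} (hb : 1 / 2 ≤ b) (hb3 : b ^ 2 ≤ 1 / 3) (hv : 0 < v) :
    (1 + 1 / b) / Real.sinc (b * Real.pi) ^ 4 ≤
      3.11 * (0.13534 / v ^ 2) * Real.exp (v * (4 * b ^ 2) * Real.pi ^ 2 / 2) := by
  have hbpos : 0 < b := by linarith
  have hb' := b_lt hb hb3
  have hp1 : 3.1415 < Real.pi := Real.pi_gt_d4
  have hp2 : Real.pi < 3.1416 := Real.pi_lt_d4
  have hppos : 0 < Real.pi := Real.pi_pos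
  have hbp : 0 < b * Real.pi := by positivity
  obtain ⟨t, ht⟩ : ∃ t : ℝ, t = b * Real.pi - Real.pi / 2 := ⟨_, rfl⟩
  have htw : t = (b - 1 / 2) * Real.pi := by rw [ht]; ring
  have ht2 : t ^ 2 ≤ 9.87 * (b - 1 / 2) ^ 2 := by
    rw [htw, mul_pow]
    have : Real.pi ^ 2 ≤ 9.87 := by nlinarith
    nlinarith [sq_nonneg (b - 1 / 2)]
  have hcos : 1 - t ^ 2 / 2 ≤ Real.sin (b * Real.pi) := by
    have h := Real.one_sub_sq_div_two_le_cos (x := t)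
    rw [ht, Real.cos_sub_pi_div_two] at h
    rw [ht]; exact h
  obtain ⟨c, hc⟩ : ∃ c : ℝ, c = 1 - t ^ 2 / 2 := ⟨_, rfl⟩
  rw [← hc] at hcos
  have hw0 : 0 ≤ b - 1 / 2 := by linarith
  have hw1 : b - 1 / 2 ≤ 0.0774 := by linarith
  have hcl : 1 - 9.87 / 2 * (b - 1 / 2) ^ 2 ≤ c := by rw [hc]; linarith
  have hcpos : 0 < c := by nlinarith
  have hc1 : c ≤ 1 := by rw [hc]; nlinarith [sq_nonneg t]
  have hc4 : 1 - 2 * (9.87 * (b - 1 / 2) ^ 2) ≤ c ^ 4 := by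
    have h1 : 1 - 4 * (1 - c) ≤ c ^ 4 := by
      have : c ^ 4 - (1 - 4 * (1 - c)) = (1 - c) ^ 2 * (c ^ 2 + 2 * c + 3) := by ring
      nlinarith [mul_nonneg (sq_nonneg (1 - c)) (by positivity : (0:ℝ) ≤ c ^ 2 + 2 * c + 3)]
    linarith
  have hb1 : 1 + 1 / b ≤ 3.11 * c ^ 4 := by
    have h1 : 1 + 1 / b ≤ 3.11 * (1 - 2 * (9.87 * (b - 1 / 2) ^ 2)) := by
      have : 1 / b * b = 1 := by field_simp
      rw [← sub_nonneg]
      have h2 : 3.11 * (1 - 2 * (9.87 * (b - 1 / 2) ^ 2)) - (1 + 1 / b) =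
          (3.11 * (1 - 2 * (9.87 * (b - 1 / 2) ^ 2)) * b - (b + 1)) / b := by
        field_simp
      rw [h2]
      apply div_nonneg _ hbpos.le
      obtain ⟨w, hw⟩ : ∃ w : ℝ, w = b - 1 / 2 := ⟨_, rfl⟩
      have hbw : b = w + 1 / 2 := by rw [hw]; ring
      rw [hbw]
      rw [← hw] at hw0 hw1
      have e1 : w + 1 / 2 - 1 / 2 = w := by ring
      rw [e1]
      nlinarith [mul_nonneg hw0 (sub_nonneg.2 hw1), mul_nonneg (mul_nonneg hw0 hw0) (sub_nonneg.2 hw1)]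
    linarith
  have hs : c / (b * Real.pi) ≤ Real.sinc (b * Real.pi) := by
    rw [Real.sinc_of_ne_zero hbp.ne']
    exact div_le_div_of_nonneg_right hcos hbp.le
  have hcb : 0 < c / (b * Real.pi) := div_pos hcpos hbp
  have hs4 : (c / (b * Real.pi)) ^ 4 ≤ Real.sinc (b * Real.pi) ^ 4 := pow_le_pow_left₀ hcb.le hs 4
  have hs4pos : 0 < (c / (b * Real.pi)) ^ 4 := by positivity
  have hc4pos : 0 < c ^ 4 := by positivity
  have hstep : (1 + 1 / b) / Real.sinc (b * Real.pi) ^ 4 ≤ 3.11 * (b * Real.pi) ^ 4 := by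
    rw [div_le_iff₀ (lt_of_lt_of_le hs4pos hs4)]
    calc 1 + 1 / b ≤ 3.11 * c ^ 4 := hb1
      _ = 3.11 * (b * Real.pi) ^ 4 * (c / (b * Real.pi)) ^ 4 := by
          rw [div_pow]; field_simp
      _ ≤ _ := mul_le_mul_of_nonneg_left hs4 (by positivity)
  refine hstep.trans ?_
  obtain ⟨X, hX⟩ : ∃ X : ℝ, X = (b * Real.pi) ^ 2 := ⟨_, rfl⟩
  have hXpos : 0 < X := by rw [hX]; positivity
  have e1 : v * (4 * b ^ 2) * Real.pi ^ 2 / 2 = 2 * (v * X - 1) + 2 := by rw [hX]; ring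
  have h1 : v * X ≤ Real.exp (v * X - 1) := by
    have := Real.add_one_le_exp (v * X - 1)
    linarith
  have h2 : (v * X) ^ 2 ≤ Real.exp (2 * (v * X - 1)) := by
    have h3 : Real.exp (2 * (v * X - 1)) = Real.exp (v * X - 1) ^ 2 := by
      rw [← Real.exp_nat_mul]; norm_num
    rw [h3]
    exact pow_le_pow_left₀ (by positivity) h1 2
  have h4 : Real.exp (2 * (v * X - 1)) ≤ 0.13534 * Real.exp (v * (4 * b ^ 2) * Real.pi ^ 2 / 2) := by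
    rw [e1]
    have h5 : Real.exp (2 * (v * X - 1)) = Real.exp (-2) * Real.exp (2 * (v * X - 1) + 2) := by
      rw [← Real.exp_add]; ring_nf
    rw [h5]
    exact mul_le_mul_of_nonneg_right exp_neg_two (Real.exp_pos _).le
  have e2 : (b * Real.pi) ^ 4 = X ^ 2 := by rw [hX]; ring
  rw [e2]
  have h6 : v ^ 2 * X ^ 2 ≤ 0.13534 * Real.exp (v * (4 * b ^ 2) * Real.pi ^ 2 / 2) := by
    have := h2.trans h4
    rwa [mul_pow] at this
  have h7 : X ^ 2 ≤ 0.13534 / v ^ 2 * Real.exp (v * (4 * b ^ 2) * Real.pi ^ 2 / 2) := by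
    rw [div_mul_eq_mul_div, le_div_iff₀ (by positivity)]
    linarith
  nlinarith

/-- the lower bound of `S_TF17` -/
noncomputable def LL (p d : ℝ) : ℝ :=
  1.178 + 4.70 * d - 4.72 * p + 23.3 * d ^ 2 / 2 - 23.5 * (p * d) - 135 * (p * d ^ 2 / 2)

lemma LL_mono {p d d' : ℝ} (hp : p ≤ 1 / 40) (hd : 0 ≤ d) (hdd : d ≤ d') :
    LL p d ≤ LL p d' := by
  unfold LL
  have e : (1.178 + 4.70 * d' - 4.72 * p + 23.3 * d' ^ 2 / 2 - 23.5 * (p * d') - 135 * (p * d' ^ 2 / 2)) -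
      (1.178 + 4.70 * d - 4.72 * p + 23.3 * d ^ 2 / 2 - 23.5 * (p * d) - 135 * (p * d ^ 2 / 2)) =
      (d' - d) * (4.70 - 23.5 * p + (d + d') * (11.65 - 67.5 * p)) := by ring
  have h1 : 0 ≤ 4.70 - 23.5 * p + (d + d') * (11.65 - 67.5 * p) := by
    have : 0 ≤ (d + d') * (11.65 - 67.5 * p) := mul_nonneg (by linarith) (by linarith)
    linarith
  have h2 := mul_nonneg (sub_nonneg.2 hdd) h1
  linarith

lemma exp_chord {g mu A0 A1 s c : ℝ} (hs0 : 0 ≤ s) (hs1 : s ≤ 1)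
    (hA0 : Real.exp (-(g * mu / 4)) ≤ A0) (hA1 : Real.exp (-(g * mu / 3)) ≤ A1)
    (hc : c ≤ -(g * mu * (1 / 4 + s / 12))) :
    Real.exp c ≤ A0 * (1 - s) + A1 * s := by
  have h1 : Real.exp ((1 - s) • (-(g * mu / 4)) + s • (-(g * mu / 3))) ≤
      (1 - s) • Real.exp (-(g * mu / 4)) + s • Real.exp (-(g * mu / 3)) :=
    convexOn_exp.2 (mem_univ _) (mem_univ _) (by linarith) hs0 (by ring)
  simp only [smul_eq_mul] at h1
  have e : (1 - s) * (-(g * mu / 4)) + s * (-(g * mu / 3)) = -(g * mu * (1 / 4 + s / 12)) := by ring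
  rw [e] at h1
  have h2 := Real.exp_le_exp.2 hc
  have h3 := mul_le_mul_of_nonneg_left hA0 (by linarith : 0 ≤ 1 - s)
  have h4 := mul_le_mul_of_nonneg_left hA1 hs0
  linarith

lemma Eb_le {c mu A0 A1 B0 B1 s : ℝ} (hmu : 0 < mu) (hs0 : 0 ≤ s) (hs1 : s ≤ 1)
    (hA0 : Real.exp (-(8.7486 * mu / 4)) ≤ A0) (hA1 : Real.exp (-(8.7486 * mu / 3)) ≤ A1)
    (hB : 1 ≤ (B0 * (1 - s) + B1 * s) * ((2.1 * mu * (1 - s) + 2.8 * mu * s) ^ 3 +
      4 * (2.1 * mu * (1 - s) + 2.8 * mu * s)))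
    (hc : mu * (1 / 4 + s / 12) ≤ c) :
    Eb c ≤ 2 * ((A0 * (1 - s) + A1 * s) * (B0 * (1 - s) + B1 * s)) := by
  have hp1 : 3.1415 < Real.pi := Real.pi_gt_d4
  have hcpos : 0 < c := lt_of_lt_of_le (by positivity) hc
  have hexp : Real.exp (c * (21 / 5) ^ 2 - 42 / 5 * c * Real.pi) ≤ A0 * (1 - s) + A1 * s := by
    apply exp_chord hs0 hs1 hA0 hA1
    have h1 : 42 / 5 * c * 3.1415 ≤ 42 / 5 * c * Real.pi :=
      mul_le_mul_of_nonneg_left hp1.le (by positivity)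
    have h2 : c * (21 / 5) ^ 2 - 42 / 5 * c * 3.1415 = -(8.7486 * c) := by ring
    have h3 : 8.7486 * mu * (1 / 4 + s / 12) ≤ 8.7486 * c := by
      have := mul_le_mul_of_nonneg_left hc (by norm_num : (0:ℝ) ≤ 8.7486)
      linarith
    linarith
  obtain ⟨l, hl⟩ : ∃ l : ℝ, l = 2.1 * mu * (1 - s) + 2.8 * mu * s := ⟨_, rfl⟩
  rw [← hl] at hB
  have hlc : l ≤ 42 / 5 * c := by
    rw [hl]
    have := mul_le_mul_of_nonneg_left hc (by norm_num : (0:ℝ) ≤ 42 / 5)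
    linarith
  have hlpos : 0 < l := by
    rw [hl]
    have : 0 < mu * (21 + 7 * s) := by positivity
    linarith
  have hBpos : 0 < B0 * (1 - s) + B1 * s := by
    have : 0 < l ^ 3 + 4 * l := by positivity
    by_contra hcon
    push Not at hcon
    have := mul_nonpos_of_nonpos_of_nonneg hcon this.le
    linarith
  obtain ⟨m, hm⟩ : ∃ m : ℝ, m = 42 / 5 * c := ⟨_, rfl⟩
  unfold Eb
  rw [← hm]
  rw [← hm] at hlc hexp
  have hmpos : 0 < m := by rw [hm]; positivity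
  have hden : 0 < m * (m ^ 2 + 4) := by positivity
  rw [div_le_iff₀ hden]
  have h1 : l ^ 3 + 4 * l ≤ m * (m ^ 2 + 4) := by
    have : l ^ 3 ≤ m ^ 3 := pow_le_pow_left₀ hlpos.le hlc 3
    nlinarith
  have h2 : 1 ≤ (B0 * (1 - s) + B1 * s) * (m * (m ^ 2 + 4)) :=
    hB.trans (mul_le_mul_of_nonneg_left h1 hBpos.le)
  have hApos : 0 ≤ A0 * (1 - s) + A1 * s := (Real.exp_pos _).le.trans hexp
  calc Real.exp (c * (21 / 5) ^ 2 - m * Real.pi) * 2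
      ≤ (A0 * (1 - s) + A1 * s) * 2 := mul_le_mul_of_nonneg_right hexp (by norm_num)
    _ = 2 * (A0 * (1 - s) + A1 * s) * 1 := by ring
    _ ≤ 2 * (A0 * (1 - s) + A1 * s) * ((B0 * (1 - s) + B1 * s) * (m * (m ^ 2 + 4))) :=
        mul_le_mul_of_nonneg_left h2 (by positivity)
    _ = _ := by ring

theorem cell {e0 e1 E zl mu Z A0 A1 B0 B1 T V : ℝ}
    (he0 : 0.19625 ≤ e0) (he1 : e1 ≤ 1 / 2)
    (hE0 : 0 < E) (hE : 15 * E * Real.exp (3 * e1 / 7) ≤ 1)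
    (hzl0 : 0 < zl) (hzl : zl ≤ 1 - e1 / 3 + e1 ^ 2 / 10 - e1 ^ 3 / 42)
    (hmu0 : 0 < mu) (hmu : mu ≤ 2 * (1 / 3 - 4 / 45 * e1) - 0.104 * e1 / zl)
    (hZ0 : 0 < Z) (hZ : 1 - e0 / 3 + e0 ^ 2 / 10 ≤ 4 * e0 * Z)
    (hA0 : Real.exp (-(8.7486 * mu / 4)) ≤ A0) (hA1 : Real.exp (-(8.7486 * mu / 3)) ≤ A1)
    (hB0 : 0 < B0) (hB1 : 0 < B1)
    (hB : ∀ s : ℝ, 0 ≤ s → s ≤ 1 → 1 ≤ (B0 * (1 - s) + B1 * s) *
      ((2.1 * mu * (1 - s) + 2.8 * mu * s) ^ 3 + 4 * (2.1 * mu * (1 - s) + 2.8 * mu * s)))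
    (hT0 : 0 < T)
    (hT : 1.07 * 3.11 * 0.13534 * (0.00148 + 0.0079 * e1 ^ 2) ≤ T * (1 / 3 - 4 / 45 * e1) ^ 2)
    (hV : 1 / 3 - 0.078 * e0 ≤ V) (hV' : V ≤ 0.319)
    (hL : ∀ s : ℝ, 0 ≤ s → s ≤ 1 → 0 ≤ LL ((1 / 4 + s / 12) / 14) (0.16 - 1.5 * V * (1 / 4 + s / 12)))
    (hP : ∀ s : ℝ, 0 ≤ s → s ≤ 1 →
      T + Z * ((A0 * (1 - s) + A1 * s) * (B0 * (1 - s) + B1 * s)) ≤
        E * (1 - (1 / 4 + s / 12)) * LL ((1 / 4 + s / 12) / 14) (0.16 - 1.5 * V * (1 / 4 + s / 12)))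
    (h14 : S_TF14) (h15 : S_TF15) (h2 : S_TF2) (h16 : S_TF16) (h17 : S_TF17)
    {ε b : ℝ} (hε0 : e0 ≤ ε) (hε1 : ε ≤ e1) (hb : 1 / 2 ≤ b) (hb3 : b ^ 2 ≤ 1 / 3) :
    0 < 4 * b ^ 2 * vv ε / 2 - 2 * ε / zt ε * 0.052 * b ^ 2 ∧
    1.07 * ((1 + 1 / b) / Real.sinc (b * Real.pi) ^ 4 * KK3 ε 3) ≤
      Real.exp (vv ε * (4 * b ^ 2) * Real.pi ^ 2 / 2) *
      ((1 - b ^ 2) / 2 * ch ε 0 * JL (b ^ 2 / 14) (vv ε * (4 * b ^ 2 - b ^ 2)) -
        zt ε / (8 * ε) * Eb (4 * b ^ 2 * vv ε / 2 - 2 * ε / zt ε * 0.052 * b ^ 2)) := by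
  have hε : (0:ℝ) < ε := by linarith
  obtain ⟨hz1, hz2, hch, hv1, hv2⟩ := h14 ε (by linarith) (by linarith)
  have hK := h15 h2 ε (by linarith) (by linarith)
  have he1pos : 0 < e1 := by linarith
  -- zeta
  have hzt : zl ≤ zt ε := by
    refine le_trans hzl (le_trans ?_ hz1)
    have e : (1 - ε / 3 + ε ^ 2 / 10 - ε ^ 3 / 42) - (1 - e1 / 3 + e1 ^ 2 / 10 - e1 ^ 3 / 42) =
      (e1 - ε) * (1 / 3 - (e1 + ε) / 10 + (e1 ^ 2 + e1 * ε + ε ^ 2) / 42) := by ring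
    have h3 : 0 ≤ (e1 - ε) * (1 / 3 - (e1 + ε) / 10 + (e1 ^ 2 + e1 * ε + ε ^ 2) / 42) := by
      apply mul_nonneg (by linarith)
      have : 0 ≤ (e1 ^ 2 + e1 * ε + ε ^ 2) / 42 := by positivity
      linarith
    linarith
  have hztpos : 0 < zt ε := lt_of_lt_of_le hzl0 hzt
  have hvpos : 0 < 1 / 3 - 4 / 45 * e1 := by linarith
  have hvlo : 1 / 3 - 4 / 45 * e1 ≤ vv ε := by linarith
  have hvv : 0 < vv ε := by linarith
  have hvV : vv ε ≤ V := by linarith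
  have hmu' : mu ≤ 2 * vv ε - 0.104 * ε / zt ε := by
    have h3 : 0.104 * ε / zt ε ≤ 0.104 * e1 / zl :=
      div_le_div₀ (by positivity) (by linarith) hzl0 hzt
    linarith
  have hb2 : 1 / 4 ≤ b ^ 2 := by nlinarith
  obtain ⟨s, hs⟩ : ∃ s : ℝ, s = 12 * (b ^ 2 - 1 / 4) := ⟨_, rfl⟩
  have hs0 : 0 ≤ s := by rw [hs]; linarith
  have hs1 : s ≤ 1 := by rw [hs]; linarith
  have hbs : b ^ 2 = 1 / 4 + s / 12 := by rw [hs]; ring
  obtain ⟨c, hc⟩ : ∃ c : ℝ, c = 4 * b ^ 2 * vv ε / 2 - 2 * ε / zt ε * 0.052 * b ^ 2 := ⟨_, rfl⟩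
  have hc2 : mu * (1 / 4 + s / 12) ≤ c := by
    rw [hc, ← hbs]
    have e : 4 * b ^ 2 * vv ε / 2 - 2 * ε / zt ε * 0.052 * b ^ 2 =
      (2 * vv ε - 0.104 * ε / zt ε) * b ^ 2 := by ring
    rw [e]
    exact mul_le_mul_of_nonneg_right hmu' (by positivity)
  have hcpos : 0 < c := lt_of_lt_of_le (by positivity) hc2
  rw [← hc]
  refine ⟨hcpos, ?_⟩
  have hEb := Eb_le hmu0 hs0 hs1 hA0 hA1 (hB s hs0 hs1) hc2
  -- T2
  have hZ' : zt ε / (8 * ε) ≤ Z / 2 := by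
    rw [div_le_iff₀ (by positivity)]
    have h3 : 1 - ε / 3 + ε ^ 2 / 10 ≤ 1 - e0 / 3 + e0 ^ 2 / 10 := by
      nlinarith [mul_nonneg (sub_nonneg.2 hε0) (by linarith : 0 ≤ 1 - (ε + e0))]
    have h4 : e0 * Z ≤ ε * Z := mul_le_mul_of_nonneg_right hε0 hZ0.le
    linarith
  obtain ⟨A, hA⟩ : ∃ A : ℝ, A = A0 * (1 - s) + A1 * s := ⟨_, rfl⟩
  obtain ⟨B, hBB⟩ : ∃ B : ℝ, B = B0 * (1 - s) + B1 * s := ⟨_, rfl⟩
  have hA0' : 0 ≤ A0 := (Real.exp_pos _).le.trans hA0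
  have hA1' : 0 ≤ A1 := (Real.exp_pos _).le.trans hA1
  have hApos : 0 ≤ A := by
    rw [hA]; exact add_nonneg (mul_nonneg hA0' (by linarith)) (mul_nonneg hA1' hs0)
  have hBpos : 0 ≤ B := by
    rw [hBB]; exact add_nonneg (mul_nonneg hB0.le (by linarith)) (mul_nonneg hB1.le hs0)
  have hP' := hP s hs0 hs1
  have hL' := hL s hs0 hs1
  rw [← hA, ← hBB] at hP' hEb
  have hT2 : zt ε / (8 * ε) * Eb c ≤ Z * (A * B) := by
    have h3 : zt ε / (8 * ε) * Eb c ≤ zt ε / (8 * ε) * (2 * (A * B)) :=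
      mul_le_mul_of_nonneg_left hEb (by positivity)
    have h4 : zt ε / (8 * ε) * (2 * (A * B)) ≤ Z / 2 * (2 * (A * B)) :=
      mul_le_mul_of_nonneg_right hZ' (by positivity)
    linarith
  -- T1
  have hVb : V * (1 / 4 + s / 12) ≤ 0.319 / 3 := by
    have h3 : V * (1 / 4 + s / 12) ≤ 0.319 * (1 / 4 + s / 12) :=
      mul_le_mul_of_nonneg_right hV' (by linarith)
    linarith
  have hvb : vv ε * (1 / 4 + s / 12) ≤ V * (1 / 4 + s / 12) :=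
    mul_le_mul_of_nonneg_right hvV (by linarith)
  have hvb0 : 0.2888 * (1 / 4) ≤ vv ε * (1 / 4 + s / 12) :=
    mul_le_mul (by linarith) (by linarith) (by norm_num) hvv.le
  obtain ⟨q, hq⟩ : ∃ q : ℝ, q = vv ε * (4 * b ^ 2 - b ^ 2) := ⟨_, rfl⟩
  have hq' : q = 3 * (vv ε * (1 / 4 + s / 12)) := by rw [hq, hbs]; ring
  have hJ := h17 h16 (b ^ 2 / 14) q (by positivity) (by linarith) (by linarith) (by linarith)
  have hJL : LL ((1 / 4 + s / 12) / 14) (0.16 - 1.5 * V * (1 / 4 + s / 12)) ≤ JL (b ^ 2 / 14) q := by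
    have h3 : LL ((1 / 4 + s / 12) / 14) (0.16 - 1.5 * V * (1 / 4 + s / 12)) ≤
        LL ((1 / 4 + s / 12) / 14) ((0.32 - q) / 2) := by
      apply LL_mono (by linarith) (by linarith)
      rw [hq']; linarith
    refine h3.trans ?_
    rw [← hbs]
    unfold LL
    linarith [hJ]
  rw [← hq]
  obtain ⟨W, hW⟩ : ∃ W : ℝ, W = LL ((1 / 4 + s / 12) / 14) (0.16 - 1.5 * V * (1 / 4 + s / 12)) := ⟨_, rfl⟩
  rw [← hW] at hJL hP' hL'
  rw [← hbs] at hP'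
  have hchE : 2 * E ≤ ch ε 0 := by
    refine le_trans ?_ hch
    have h3 : Real.exp (-(3 * e1 / 7)) ≤ Real.exp (-(3 * ε / 7)) := Real.exp_le_exp.2 (by linarith)
    have h4 : 15 * E ≤ Real.exp (-(3 * e1 / 7)) := by
      rw [Real.exp_neg, ← one_div, le_div_iff₀ (Real.exp_pos _)]
      exact hE
    linarith
  have hT1 : E * (1 - b ^ 2) * W ≤ (1 - b ^ 2) / 2 * ch ε 0 * JL (b ^ 2 / 14) q := by
    have h3 : 0 ≤ (1 - b ^ 2) / 2 := by linarith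
    have h4 : 2 * E * W ≤ ch ε 0 * JL (b ^ 2 / 14) q :=
      mul_le_mul hchE hJL hL' (by linarith)
    have h5 := mul_le_mul_of_nonneg_left h4 h3
    calc E * (1 - b ^ 2) * W = (1 - b ^ 2) / 2 * (2 * E * W) := by ring
      _ ≤ (1 - b ^ 2) / 2 * (ch ε 0 * JL (b ^ 2 / 14) q) := h5
      _ = _ := by ring
  have hmain : T ≤ (1 - b ^ 2) / 2 * ch ε 0 * JL (b ^ 2 / 14) q - zt ε / (8 * ε) * Eb c := by
    linarith
  -- T3
  have hu := t3_bound hb hb3 hvv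
  obtain ⟨U, hU⟩ : ∃ U : ℝ, U = (1 + 1 / b) / Real.sinc (b * Real.pi) ^ 4 := ⟨_, rfl⟩
  rw [← hU] at hu
  rw [← hU]
  have hbpos : 0 < b := by linarith
  have hU0 : 0 ≤ U := by
    rw [hU]
    apply div_nonneg (by positivity)
    positivity
  obtain ⟨X, hX⟩ : ∃ X : ℝ, X = Real.exp (vv ε * (4 * b ^ 2) * Real.pi ^ 2 / 2) := ⟨_, rfl⟩
  have hXpos : 0 < X := by rw [hX]; exact Real.exp_pos _
  rw [← hX]
  rw [← hX] at hu
  have hK' : KK3 ε 3 ≤ 0.00148 + 0.0079 * e1 ^ 2 := by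
    have : ε ^ 2 ≤ e1 ^ 2 := pow_le_pow_left₀ hε.le hε1 2
    linarith
  have h5 : U * KK3 ε 3 ≤ 3.11 * (0.13534 / vv ε ^ 2) * X * (0.00148 + 0.0079 * e1 ^ 2) := by
    calc U * KK3 ε 3 ≤ U * (0.00148 + 0.0079 * e1 ^ 2) := mul_le_mul_of_nonneg_left hK' hU0
      _ ≤ _ := mul_le_mul_of_nonneg_right hu (by positivity)
  have h6 : 1.07 * 3.11 * 0.13534 * (0.00148 + 0.0079 * e1 ^ 2) ≤ T * vv ε ^ 2 := by
    refine hT.trans (mul_le_mul_of_nonneg_left (pow_le_pow_left₀ hvpos.le hvlo 2) hT0.le)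
  have h7 : 1.07 * (3.11 * (0.13534 / vv ε ^ 2) * X * (0.00148 + 0.0079 * e1 ^ 2)) ≤ X * T := by
    have h8 : 1.07 * 3.11 * 0.13534 * (0.00148 + 0.0079 * e1 ^ 2) / vv ε ^ 2 ≤ T := by
      rw [div_le_iff₀ (by positivity)]; exact h6
    calc 1.07 * (3.11 * (0.13534 / vv ε ^ 2) * X * (0.00148 + 0.0079 * e1 ^ 2))
        = X * (1.07 * 3.11 * 0.13534 * (0.00148 + 0.0079 * e1 ^ 2) / vv ε ^ 2) := by ring
      _ ≤ X * T := mul_le_mul_of_nonneg_left h8 hXpos.le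
  calc 1.07 * (U * KK3 ε 3) ≤ 1.07 * (3.11 * (0.13534 / vv ε ^ 2) * X * (0.00148 + 0.0079 * e1 ^ 2)) :=
        mul_le_mul_of_nonneg_left h5 (by norm_num)
    _ ≤ X * T := h7
    _ ≤ _ := mul_le_mul_of_nonneg_left hmain hXpos.le

lemma exp_neg_le {x A : ℝ} (hx : 0 ≤ x) (hA : 0 < A)
    (h : 1 ≤ A * ∑ i ∈ Finset.range 10, x ^ i / (i.factorial : ℝ)) : Real.exp (-x) ≤ A := by
  have h1 := Real.sum_le_exp_of_nonneg hx 10
  have h2 : 1 ≤ A * Real.exp x := h.trans (mul_le_mul_of_nonneg_left h1 hA.le)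
  rw [Real.exp_neg, ← one_div, div_le_iff₀ (Real.exp_pos _)]
  exact h2

lemma exp_up {x E : ℝ} (hx : 0 ≤ x) (hx1 : x ≤ 1) (hE : 0 < E)
    (h : 15 * E * (∑ i ∈ Finset.range 5, x ^ i / (i.factorial : ℝ) + x ^ 5 * (5 + 1) / (120 * 5)) ≤ 1) :
    15 * E * Real.exp x ≤ 1 := by
  have h1 := Real.exp_bound' hx hx1 (n := 5) (by norm_num)
  refine le_trans (mul_le_mul_of_nonneg_left h1 (by positivity)) ?_
  norm_num [Nat.factorial] at h ⊢
  linarith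

lemma bern {s : ℝ} (h0 : 0 ≤ s) (h1 : s ≤ 1) : 0 ≤ (1 - s) ^ 4 ∧ 0 ≤ s * (1 - s) ^ 3 ∧
    0 ≤ s ^ 2 * (1 - s) ^ 2 ∧ 0 ≤ s ^ 3 * (1 - s) ∧ 0 ≤ s ^ 4 := by
  have : 0 ≤ 1 - s := by linarith
  refine ⟨?_, ?_, ?_, ?_, ?_⟩ <;> positivity

theorem cell0 (h14 : S_TF14) (h15 : S_TF15) (h2 : S_TF2) (h16 : S_TF16) (h17 : S_TF17)
    {ε b : ℝ} (hε0 : (157 / 800) ≤ ε) (hε1 : ε ≤ (6 / 25)) (hb : 1 / 2 ≤ b) (hb3 : b ^ 2 ≤ 1 / 3) :
    0 < 4 * b ^ 2 * vv ε / 2 - 2 * ε / zt ε * 0.052 * b ^ 2 ∧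
    1.07 * ((1 + 1 / b) / Real.sinc (b * Real.pi) ^ 4 * KK3 ε 3) ≤
      Real.exp (vv ε * (4 * b ^ 2) * Real.pi ^ 2 / 2) *
      ((1 - b ^ 2) / 2 * ch ε 0 * JL (b ^ 2 / 14) (vv ε * (4 * b ^ 2 - b ^ 2)) -
        zt ε / (8 * ε) * Eb (4 * b ^ 2 * vv ε / 2 - 2 * ε / zt ε * 0.052 * b ^ 2)) := by
  refine cell (e0 := (157 / 800)) (e1 := (6 / 25)) (E := (1203 / 20000)) (zl := (92543 / 100000))
    (mu := (597 / 1000)) (Z := (59773 / 50000)) (A0 := (13549 / 50000)) (A1 := (548 / 3125))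
    (B0 := (3579 / 25000)) (B1 := (1761 / 20000)) (T := (8953 / 1000000)) (V := (381631 / 1200000))
    (by norm_num) (by norm_num) (by norm_num) ?_ (by norm_num) (by norm_num) (by norm_num) (by norm_num)
    (by norm_num) (by norm_num) ?_ ?_ (by norm_num) (by norm_num) ?_ (by norm_num) (by norm_num)
    (by norm_num) (by norm_num) ?_ ?_ h14 h15 h2 h16 h17 hε0 hε1 hb hb3
  · refine exp_up (by norm_num) (by norm_num) (by norm_num) ?_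
    norm_num [Finset.sum_range_succ, Nat.factorial]
  · refine exp_neg_le (by norm_num) (by norm_num) ?_
    norm_num [Finset.sum_range_succ, Nat.factorial]
  · refine exp_neg_le (by norm_num) (by norm_num) ?_
    norm_num [Finset.sum_range_succ, Nat.factorial]
  · intro s hs0 hs1
    obtain ⟨b0, b1, b2, b3, b4⟩ := bern hs0 hs1
    linarith
  · intro s hs0 hs1
    obtain ⟨b0, b1, b2, b3, b4⟩ := bern hs0 hs1
    unfold LL
    nlinarith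
  · intro s hs0 hs1
    obtain ⟨b0, b1, b2, b3, b4⟩ := bern hs0 hs1
    unfold LL
    linarith

theorem cell1 (h14 : S_TF14) (h15 : S_TF15) (h2 : S_TF2) (h16 : S_TF16) (h17 : S_TF17)
    {ε b : ℝ} (hε0 : (6 / 25) ≤ ε) (hε1 : ε ≤ (3 / 10)) (hb : 1 / 2 ≤ b) (hb3 : b ^ 2 ≤ 1 / 3) :
    0 < 4 * b ^ 2 * vv ε / 2 - 2 * ε / zt ε * 0.052 * b ^ 2 ∧
    1.07 * ((1 + 1 / b) / Real.sinc (b * Real.pi) ^ 4 * KK3 ε 3) ≤
      Real.exp (vv ε * (4 * b ^ 2) * Real.pi ^ 2 / 2) *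
      ((1 - b ^ 2) / 2 * ch ε 0 * JL (b ^ 2 / 14) (vv ε * (4 * b ^ 2 - b ^ 2)) -
        zt ε / (8 * ε) * Eb (4 * b ^ 2 * vv ε / 2 - 2 * ε / zt ε * 0.052 * b ^ 2)) := by
  refine cell (e0 := (6 / 25)) (e1 := (3 / 10)) (E := (29311 / 500000)) (zl := (18167 / 20000))
    (mu := (5789 / 10000)) (Z := (48217 / 50000)) (A0 := (881 / 3125)) (A1 := (9243 / 50000))
    (B0 := (15017 / 100000)) (B1 := (9309 / 100000)) (T := (10493 / 1000000)) (V := (5899 / 18750))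
    (by norm_num) (by norm_num) (by norm_num) ?_ (by norm_num) (by norm_num) (by norm_num) (by norm_num)
    (by norm_num) (by norm_num) ?_ ?_ (by norm_num) (by norm_num) ?_ (by norm_num) (by norm_num)
    (by norm_num) (by norm_num) ?_ ?_ h14 h15 h2 h16 h17 hε0 hε1 hb hb3
  · refine exp_up (by norm_num) (by norm_num) (by norm_num) ?_
    norm_num [Finset.sum_range_succ, Nat.factorial]
  · refine exp_neg_le (by norm_num) (by norm_num) ?_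
    norm_num [Finset.sum_range_succ, Nat.factorial]
  · refine exp_neg_le (by norm_num) (by norm_num) ?_
    norm_num [Finset.sum_range_succ, Nat.factorial]
  · intro s hs0 hs1
    obtain ⟨b0, b1, b2, b3, b4⟩ := bern hs0 hs1
    linarith
  · intro s hs0 hs1
    obtain ⟨b0, b1, b2, b3, b4⟩ := bern hs0 hs1
    unfold LL
    nlinarith
  · intro s hs0 hs1
    obtain ⟨b0, b1, b2, b3, b4⟩ := bern hs0 hs1
    unfold LL
    linarith

theorem cell2 (h14 : S_TF14) (h15 : S_TF15) (h2 : S_TF2) (h16 : S_TF16) (h17 : S_TF17)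
    {ε b : ℝ} (hε0 : (3 / 10) ≤ ε) (hε1 : ε ≤ (19 / 50)) (hb : 1 / 2 ≤ b) (hb3 : b ^ 2 ≤ 1 / 3) :
    0 < 4 * b ^ 2 * vv ε / 2 - 2 * ε / zt ε * 0.052 * b ^ 2 ∧
    1.07 * ((1 + 1 / b) / Real.sinc (b * Real.pi) ^ 4 * KK3 ε 3) ≤
      Real.exp (vv ε * (4 * b ^ 2) * Real.pi ^ 2 / 2) *
      ((1 - b ^ 2) / 2 * ch ε 0 * JL (b ^ 2 / 14) (vv ε * (4 * b ^ 2 - b ^ 2)) -
        zt ε / (8 * ε) * Eb (4 * b ^ 2 * vv ε / 2 - 2 * ε / zt ε * 0.052 * b ^ 2)) := by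
  refine cell (e0 := (3 / 10)) (e1 := (19 / 50)) (E := (11329 / 200000)) (zl := (44323 / 50000))
    (mu := (1109 / 2000)) (Z := (303 / 400)) (A0 := (14869 / 50000)) (A1 := (19849 / 100000))
    (B0 := (3207 / 20000)) (B1 := (314 / 3125)) (T := (6577 / 500000)) (V := (4649 / 15000))
    (by norm_num) (by norm_num) (by norm_num) ?_ (by norm_num) (by norm_num) (by norm_num) (by norm_num)
    (by norm_num) (by norm_num) ?_ ?_ (by norm_num) (by norm_num) ?_ (by norm_num) (by norm_num)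
    (by norm_num) (by norm_num) ?_ ?_ h14 h15 h2 h16 h17 hε0 hε1 hb hb3
  · refine exp_up (by norm_num) (by norm_num) (by norm_num) ?_
    norm_num [Finset.sum_range_succ, Nat.factorial]
  · refine exp_neg_le (by norm_num) (by norm_num) ?_
    norm_num [Finset.sum_range_succ, Nat.factorial]
  · refine exp_neg_le (by norm_num) (by norm_num) ?_
    norm_num [Finset.sum_range_succ, Nat.factorial]
  · intro s hs0 hs1
    obtain ⟨b0, b1, b2, b3, b4⟩ := bern hs0 hs1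
    linarith
  · intro s hs0 hs1
    obtain ⟨b0, b1, b2, b3, b4⟩ := bern hs0 hs1
    unfold LL
    nlinarith
  · intro s hs0 hs1
    obtain ⟨b0, b1, b2, b3, b4⟩ := bern hs0 hs1
    unfold LL
    linarith

theorem cell3 (h14 : S_TF14) (h15 : S_TF15) (h2 : S_TF2) (h16 : S_TF16) (h17 : S_TF17)
    {ε b : ℝ} (hε0 : (19 / 50) ≤ ε) (hε1 : ε ≤ (11 / 25)) (hb : 1 / 2 ≤ b) (hb3 : b ^ 2 ≤ 1 / 3) :
    0 < 4 * b ^ 2 * vv ε / 2 - 2 * ε / zt ε * 0.052 * b ^ 2 ∧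
    1.07 * ((1 + 1 / b) / Real.sinc (b * Real.pi) ^ 4 * KK3 ε 3) ≤
      Real.exp (vv ε * (4 * b ^ 2) * Real.pi ^ 2 / 2) *
      ((1 - b ^ 2) / 2 * ch ε 0 * JL (b ^ 2 / 14) (vv ε * (4 * b ^ 2 - b ^ 2)) -
        zt ε / (8 * ε) * Eb (4 * b ^ 2 * vv ε / 2 - 2 * ε / zt ε * 0.052 * b ^ 2)) := by
  refine cell (e0 := (19 / 50)) (e1 := (11 / 25)) (E := (27603 / 500000)) (zl := (43533 / 50000))
    (mu := (2679 / 5000)) (Z := (58407 / 100000)) (A0 := (30979 / 100000)) (A1 := (10481 / 50000))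
    (B0 := (16877 / 100000)) (B1 := (1333 / 12500)) (T := (15657 / 1000000)) (V := (22777 / 75000))
    (by norm_num) (by norm_num) (by norm_num) ?_ (by norm_num) (by norm_num) (by norm_num) (by norm_num)
    (by norm_num) (by norm_num) ?_ ?_ (by norm_num) (by norm_num) ?_ (by norm_num) (by norm_num)
    (by norm_num) (by norm_num) ?_ ?_ h14 h15 h2 h16 h17 hε0 hε1 hb hb3
  · refine exp_up (by norm_num) (by norm_num) (by norm_num) ?_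
    norm_num [Finset.sum_range_succ, Nat.factorial]
  · refine exp_neg_le (by norm_num) (by norm_num) ?_
    norm_num [Finset.sum_range_succ, Nat.factorial]
  · refine exp_neg_le (by norm_num) (by norm_num) ?_
    norm_num [Finset.sum_range_succ, Nat.factorial]
  · intro s hs0 hs1
    obtain ⟨b0, b1, b2, b3, b4⟩ := bern hs0 hs1
    linarith
  · intro s hs0 hs1
    obtain ⟨b0, b1, b2, b3, b4⟩ := bern hs0 hs1
    unfold LL
    nlinarith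
  · intro s hs0 hs1
    obtain ⟨b0, b1, b2, b3, b4⟩ := bern hs0 hs1
    unfold LL
    linarith

theorem cell4 (h14 : S_TF14) (h15 : S_TF15) (h2 : S_TF2) (h16 : S_TF16) (h17 : S_TF17)
    {ε b : ℝ} (hε0 : (11 / 25) ≤ ε) (hε1 : ε ≤ (1 / 2)) (hb : 1 / 2 ≤ b) (hb3 : b ^ 2 ≤ 1 / 3) :
    0 < 4 * b ^ 2 * vv ε / 2 - 2 * ε / zt ε * 0.052 * b ^ 2 ∧
    1.07 * ((1 + 1 / b) / Real.sinc (b * Real.pi) ^ 4 * KK3 ε 3) ≤
      Real.exp (vv ε * (4 * b ^ 2) * Real.pi ^ 2 / 2) *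
      ((1 - b ^ 2) / 2 * ch ε 0 * JL (b ^ 2 / 14) (vv ε * (4 * b ^ 2 - b ^ 2)) -
        zt ε / (8 * ε) * Eb (4 * b ^ 2 * vv ε / 2 - 2 * ε / zt ε * 0.052 * b ^ 2)) := by
  refine cell (e0 := (11 / 25)) (e1 := (1 / 2)) (E := (26901 / 500000)) (zl := (17107 / 20000))
    (mu := (5169 / 10000)) (Z := (9917 / 20000)) (A0 := (16143 / 50000)) (A1 := (22149 / 100000))
    (B0 := (17791 / 100000)) (B1 := (11337 / 100000)) (T := (3729 / 200000)) (V := (11213 / 37500))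
    (by norm_num) (by norm_num) (by norm_num) ?_ (by norm_num) (by norm_num) (by norm_num) (by norm_num)
    (by norm_num) (by norm_num) ?_ ?_ (by norm_num) (by norm_num) ?_ (by norm_num) (by norm_num)
    (by norm_num) (by norm_num) ?_ ?_ h14 h15 h2 h16 h17 hε0 hε1 hb hb3
  · refine exp_up (by norm_num) (by norm_num) (by norm_num) ?_
    norm_num [Finset.sum_range_succ, Nat.factorial]
  · refine exp_neg_le (by norm_num) (by norm_num) ?_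
    norm_num [Finset.sum_range_succ, Nat.factorial]
  · refine exp_neg_le (by norm_num) (by norm_num) ?_
    norm_num [Finset.sum_range_succ, Nat.factorial]
  · intro s hs0 hs1
    obtain ⟨b0, b1, b2, b3, b4⟩ := bern hs0 hs1
    linarith
  · intro s hs0 hs1
    obtain ⟨b0, b1, b2, b3, b4⟩ := bern hs0 hs1
    unfold LL
    nlinarith
  · intro s hs0 hs1
    obtain ⟨b0, b1, b2, b3, b4⟩ := bern hs0 hs1
    unfold LL
    linarith

/-- **TF19** -/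
theorem tf19 : S_TF19 := by
  intro h14 h15 h2 h16 h17 ε b hε0 hε1 hb hb3
  have hε0' : (157 / 800 : ℝ) ≤ ε := by norm_num at hε0 ⊢; linarith
  rcases le_total ε (6 / 25) with h | h
  · exact cell0 h14 h15 h2 h16 h17 hε0' h hb hb3
  rcases le_total ε (3 / 10) with h' | h'
  · exact cell1 h14 h15 h2 h16 h17 h h' hb hb3
  rcases le_total ε (19 / 50) with h'' | h''
  · exact cell2 h14 h15 h2 h16 h17 h' h'' hb hb3
  rcases le_total ε (11 / 25) with h3 | h3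
  · exact cell3 h14 h15 h2 h16 h17 h'' h3 hb hb3
  · exact cell4 h14 h15 h2 h16 h17 h3 hε1 hb hb3

end Pool.Agent.H947.TF19
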