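import Pool.Agent.H465.OC.StmA

/-!
# Project OC, task A7: Dwork's lemma
-/

set_option autoImplicit false

namespace Pool.Agent.H947.OCDwork

open Polynomial Pool.Agent.H465.OC

/-- Polynomials are represented by their values at `j`. -/
theorem rel_poly {p : ℕ} [Fact p.Prime] {B : Type} [CommRing B] [Algebra ℤ_[p] B] (j : B)
    (c : ℤ_[p]) (P : ℤ_[p][X]) : Rel j c (fun x => P.eval x) (aeval j P) := by
  intro M
  refine ⟨P, 1, ?_, ?_, ?_⟩
  · rw [eval_one]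
    exact isUnit_one
  · rw [map_one, one_mul, sub_self]
    exact dvd_zero _
  · intro x _
    rw [eval_one, one_mul, sub_self]
    exact dvd_zero _

theorem main : RelRing → RelDiv → RelLip → RelV → Dwork := by
  intro hR hD hL hV p _ B _ _ j c V φ hI hN _ hφ hφc c0 hc0 hfix hcon Λ L hΛ P hP l x hx
  obtain ⟨P', hP'⟩ : ∃ P' : ℕ → ℤ_[p] → ℤ_[p], P' = fun l x => (P l).eval x := ⟨_, rfl⟩
  have hPe : ∀ l x, (P l).eval x = P' l x := by
    intro l x
    rw [hP']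
  -- the functions `h`
  have hstep : ∀ l, ∃ F' : ℤ_[p] → ℤ_[p], ∃ e : B, Rel j c F' e ∧
      ∀ x, (p : ℤ_[p]) ∣ x - c →
        P' (l + 1) x - Λ x * P' l (φ x) = (p : ℤ_[p]) ^ (l + 1) * F' x := by
    intro l
    obtain ⟨e, he⟩ := hP l
    have h1 : Rel j c (fun x => (P (l + 1)).eval x - Λ x * (P l).eval (φ x))
        (aeval j (P (l + 1)) - L * V (aeval j (P l))) := by
      have a1 := hV p B j c V φ hφ hφc _ _ (rel_poly j c (P l))
      have a2 := ((hR p B j c).2.2 _ _ _ _ hΛ a1).2.1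
      exact ((hR p B j c).2.2 _ _ _ _ (rel_poly j c (P (l + 1))) a2).2.2
    have h2 : aeval j (P (l + 1)) - L * V (aeval j (P l)) = (p : B) ^ (l + 1) * e := by
      rw [he]
      ring
    rw [h2] at h1
    obtain ⟨F', hF', hx'⟩ := (hD p B j c hI hN).1 _ _ _ h1
    exact ⟨F', e, hF', fun x hx => by rw [← hx' x hx, hPe, hPe]⟩
  choose g e hg hge using hstep
  obtain ⟨h, hh0, hhs⟩ : ∃ h : ℕ → ℤ_[p] → ℤ_[p], h 0 = P' 0 ∧ ∀ l, h (l + 1) = g l :=
    ⟨fun n => Nat.casesOn n (P' 0) g, rfl, fun _ => rfl⟩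
  -- Lipschitz
  have hlipΛ : ∀ (x y : ℤ_[p]) (m : ℕ), (p : ℤ_[p]) ∣ x - c → (p : ℤ_[p]) ∣ y - c →
      (p : ℤ_[p]) ^ m ∣ x - y → (p : ℤ_[p]) ^ m ∣ Λ x - Λ y := hL p B j c Λ L hΛ
  have hliph : ∀ (i : ℕ) (x y : ℤ_[p]) (m : ℕ), (p : ℤ_[p]) ∣ x - c → (p : ℤ_[p]) ∣ y - c →
      (p : ℤ_[p]) ^ m ∣ x - y → (p : ℤ_[p]) ^ m ∣ h i x - h i y := by
    intro i
    cases i with
    | zero =>
      rw [hh0, hP']
      exact hL p B j c _ _ (rel_poly j c (P 0))
    | succ i =>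
      rw [hhs]
      exact hL p B j c _ _ (hg i)
  -- iterates stay in the disc
  have hit : ∀ (m : ℕ) (x : ℤ_[p]), (p : ℤ_[p]) ∣ x - c → (p : ℤ_[p]) ∣ φ^[m] x - c := by
    intro m
    induction m with
    | zero => intro x hx; exact hx
    | succ m ih =>
      intro x hx
      rw [Function.iterate_succ_apply]
      exact ih _ (hφc x hx)
  obtain ⟨lam, hlam⟩ : ∃ lam : ℕ → ℤ_[p] → ℤ_[p],
      lam = fun m x => ∏ s ∈ Finset.range m, Λ (φ^[s] x) := ⟨_, rfl⟩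
  have hlam0 : ∀ x, lam 0 x = 1 := by
    intro x
    rw [hlam]
    rfl
  have hlam1 : ∀ m x, lam (m + 1) x = lam m x * Λ (φ^[m] x) := by
    intro m x
    rw [hlam]
    exact Finset.prod_range_succ _ _
  have hlam2 : ∀ m x, lam (m + 1) x = Λ x * lam m (φ x) := by
    intro m x
    rw [hlam]
    simp only [Finset.prod_range_succ', Function.iterate_succ_apply, Function.iterate_zero_apply]
    rw [mul_comm]
  have key : ∀ (l : ℕ) (x : ℤ_[p]), (p : ℤ_[p]) ∣ x - c →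
      P' l x = ∑ i ∈ Finset.range (l + 1),
        (p : ℤ_[p]) ^ i * (lam (l - i) x * h i (φ^[l - i] x)) := by
    intro l
    induction l with
    | zero =>
      intro x _
      rw [Finset.sum_range_one, hh0, hlam0]
      simp
    | succ l ih =>
      intro x hx
      have h1 := hge l x hx
      have h2 := ih (φ x) (hφc x hx)
      rw [Finset.sum_range_succ, Nat.sub_self, hlam0, hhs, Function.iterate_zero_apply, one_mul,
        ← h1]
      have h3 : Λ x * P' l (φ x) = ∑ i ∈ Finset.range (l + 1),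
          (p : ℤ_[p]) ^ i * (lam (l + 1 - i) x * h i (φ^[l + 1 - i] x)) := by
        rw [h2, Finset.mul_sum]
        refine Finset.sum_congr rfl fun i hi => ?_
        have hi' : i ≤ l := Nat.lt_succ_iff.1 (Finset.mem_range.1 hi)
        have e1 : l + 1 - i = (l - i) + 1 := by omega
        rw [e1, hlam2, Function.iterate_succ_apply]
        ring
      rw [← h3]
      ring
  rw [hPe, hPe, key (l + 1) x hx, key l x hx, Finset.sum_range_succ, Finset.mul_sum]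
  have e2 : ∀ a b d : ℤ_[p], a + b - d = (a - d) + b := fun a b d => by ring
  rw [e2, ← Finset.sum_sub_distrib]
  refine dvd_add (Finset.dvd_sum fun i hi => ?_) (dvd_mul_right _ _)
  have hi' : i ≤ l := Nat.lt_succ_iff.1 (Finset.mem_range.1 hi)
  obtain ⟨m, hm⟩ : ∃ m, m = l - i := ⟨_, rfl⟩
  have e1 : l + 1 - i = m + 1 := by omega
  have e3 : l + 1 = i + (m + 1) := by omega
  rw [e1, ← hm, hlam1, e3, pow_add]
  -- the congruences
  have hd1 : (p : ℤ_[p]) ∣ φ^[m] x - c := hit m x hx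
  have hd2 : (p : ℤ_[p]) ∣ φ^[m + 1] x - c := hit (m + 1) x hx
  have c1 : (p : ℤ_[p]) ^ (m + 1) ∣ Λ (φ^[m] x) - Λ c0 := hlipΛ _ _ _ hd1 hc0 (hcon x hx m)
  have c2 : (p : ℤ_[p]) ^ (m + 1) ∣ h i (φ^[m + 1] x) - h i (φ^[m] x) := by
    refine hliph i _ _ _ hd2 hd1 ?_
    have c3 := hcon x hx m
    have c4 := hcon x hx (m + 1)
    have c5 : (p : ℤ_[p]) ^ (m + 1) ∣ φ^[m + 1] x - c0 :=
      (pow_dvd_pow _ (Nat.le_succ _)).trans c4
    have c6 := dvd_sub c5 c3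
    have c7 : φ^[m + 1] x - c0 - (φ^[m] x - c0) = φ^[m + 1] x - φ^[m] x := by ring
    rwa [c7] at c6
  have e4 : (p : ℤ_[p]) ^ i * (lam m x * Λ (φ^[m] x) * h i (φ^[m + 1] x)) -
      Λ c0 * ((p : ℤ_[p]) ^ i * (lam m x * h i (φ^[m] x))) =
      (p : ℤ_[p]) ^ i * (lam m x * ((Λ (φ^[m] x) - Λ c0) * h i (φ^[m + 1] x) +
        Λ c0 * (h i (φ^[m + 1] x) - h i (φ^[m] x)))) := by ring
  rw [e4]
  exact mul_dvd_mul_left _ (dvd_mul_of_dvd_right
    (dvd_add (dvd_mul_of_dvd_left c1 _) (dvd_mul_of_dvd_right c2 _)) _)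

end Pool.Agent.H947.OCDwork
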