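import Pool.Agent.H812.Tm.Spec3

/-!
# Superposition operators on bounded sequences are smooth
-/

set_option autoImplicit false
set_option linter.unusedSectionVars false

open Filter Topology Set
open scoped ContDiff BoundedContinuousFunction

namespace Pool.Agent.H947.Tm

section

variable {E G : Type} [NormedAddCommGroup E] [NormedSpace ℝ E] [FiniteDimensional ℝ E]
  [NormedAddCommGroup G] [NormedSpace ℝ G]

theorem bdd (F : E → G) (hF : Continuous F) (u : ℕ →ᵇ E) : ∃ C, ∀ i, ‖F (u i)‖ ≤ C := by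
  have := FiniteDimensional.proper_real E
  obtain ⟨C, hC⟩ := (isCompact_closedBall (0 : E) ‖u‖).exists_bound_of_continuousOn
    hF.continuousOn
  exact ⟨C, fun i => hC _ (by simpa using u.norm_coe_le_norm i)⟩

/-- the superposition operator -/
noncomputable def spo (F : E → G) (hF : Continuous F) (u : ℕ →ᵇ E) : ℕ →ᵇ G :=
  BoundedContinuousFunction.ofNormedAddCommGroup (fun i => F (u i)) continuous_of_discreteTopology
    (bdd F hF u).choose (bdd F hF u).choose_spec

theorem spo_apply (F : E → G) (hF : Continuous F) (u : ℕ →ᵇ E) (i : ℕ) :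
    spo F hF u i = F (u i) := rfl

/-- pointwise application of a bounded sequence of linear maps -/
noncomputable def ptw (T : ℕ →ᵇ (E →L[ℝ] G)) (h : ℕ →ᵇ E) : ℕ →ᵇ G :=
  BoundedContinuousFunction.ofNormedAddCommGroup (fun i => T i (h i))
    continuous_of_discreteTopology (‖T‖ * ‖h‖) (fun i => by
      have h1 := T.norm_coe_le_norm i
      have h2 := h.norm_coe_le_norm i
      have h3 : (0 : ℝ) ≤ ‖T‖ := le_trans (norm_nonneg _) h1
      exact ((T i).le_opNorm (h i)).trans (mul_le_mul h1 h2 (norm_nonneg _) h3))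

theorem ptw_apply (T : ℕ →ᵇ (E →L[ℝ] G)) (h : ℕ →ᵇ E) (i : ℕ) : ptw T h i = T i (h i) := rfl

/-- the same as a continuous bilinear map -/
noncomputable def lam : (ℕ →ᵇ (E →L[ℝ] G)) →L[ℝ] ((ℕ →ᵇ E) →L[ℝ] (ℕ →ᵇ G)) :=
  LinearMap.mkContinuous₂ (LinearMap.mk₂ ℝ (ptw (E := E) (G := G))
    (fun T T' h => by ext i; simp [ptw_apply])
    (fun c T h => by ext i; simp [ptw_apply])
    (fun T h h' => by ext i; simp [ptw_apply])
    (fun c T h => by ext i; simp [ptw_apply])) 1
    (fun T h => by
      rw [one_mul, LinearMap.mk₂_apply]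
      exact BoundedContinuousFunction.norm_ofNormedAddCommGroup_le _ (by positivity) _)

theorem lam_apply (T : ℕ →ᵇ (E →L[ℝ] G)) (h : ℕ →ᵇ E) (i : ℕ) : lam T h i = T i (h i) := rfl

theorem spo_cont (F : E → G) (hF : Continuous F) : Continuous (spo F hF) := by
  have := FiniteDimensional.proper_real E
  rw [Metric.continuous_iff]
  intro u ε hε
  have huc := (isCompact_closedBall (0 : E) (‖u‖ + 1)).uniformContinuousOn_of_continuous
    hF.continuousOn
  rw [Metric.uniformContinuousOn_iff] at huc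
  obtain ⟨δ, hδ, H⟩ := huc (ε / 2) (by linarith)
  refine ⟨min δ 1, lt_min hδ one_pos, fun v hv => ?_⟩
  have h1 : ∀ i, dist (v i) (u i) < min δ 1 := fun i =>
    lt_of_le_of_lt (BoundedContinuousFunction.dist_coe_le_dist i) hv
  have h2 : ∀ i, u i ∈ Metric.closedBall (0 : E) (‖u‖ + 1) := fun i => by
    rw [mem_closedBall_zero_iff]
    linarith [u.norm_coe_le_norm i]
  have h3 : ∀ i, v i ∈ Metric.closedBall (0 : E) (‖u‖ + 1) := fun i => by
    rw [mem_closedBall_zero_iff]
    have h4 := h1 i
    rw [dist_eq_norm] at h4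
    have h5 := lt_of_lt_of_le h4 (min_le_right _ _)
    have h6 : ‖v i‖ ≤ ‖v i - u i‖ + ‖u i‖ := by
      simpa using norm_add_le (v i - u i) (u i)
    linarith [u.norm_coe_le_norm i]
  refine lt_of_le_of_lt ((BoundedContinuousFunction.dist_le (by linarith)).2 fun i => ?_)
    (show ε / 2 < ε by linarith)
  exact (H _ (h3 i) _ (h2 i) (lt_of_lt_of_le (h1 i) (min_le_left _ _))).le

theorem spo_deriv (F : E → G) (hF : ContDiff ℝ 1 F) (u : ℕ →ᵇ E) :
    HasFDerivAt (spo F hF.continuous)
      (lam (spo (fderiv ℝ F) (hF.continuous_fderiv (by norm_num)) u)) u := by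
  have := FiniteDimensional.proper_real E
  rw [hasFDerivAt_iff_isLittleO, Asymptotics.isLittleO_iff]
  intro ε hε
  have huc := (isCompact_closedBall (0 : E) (‖u‖ + 1)).uniformContinuousOn_of_continuous
    (hF.continuous_fderiv (by norm_num)).continuousOn
  rw [Metric.uniformContinuousOn_iff] at huc
  obtain ⟨δ, hδ, H⟩ := huc ε hε
  filter_upwards [Metric.ball_mem_nhds u (lt_min hδ one_pos)] with v hv
  rw [Metric.mem_ball] at hv
  have h1 : ∀ i, dist (v i) (u i) < min δ 1 := fun i =>
    lt_of_le_of_lt (BoundedContinuousFunction.dist_coe_le_dist i) hv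
  rw [BoundedContinuousFunction.norm_le (by positivity)]
  intro i
  have key : ‖F (v i) - F (u i) - fderiv ℝ F (u i) (v i - u i)‖ ≤ ε * ‖v i - u i‖ := by
    refine Convex.norm_image_sub_le_of_norm_fderiv_le' (𝕜 := ℝ)
      (s := Metric.ball (u i) (min δ 1)) (f := F) (x := u i) (y := v i)
      (fun x _ => (hF.differentiable (by norm_num)).differentiableAt) ?_ (convex_ball _ _)
      (Metric.mem_ball_self (lt_min hδ one_pos)) (h1 i)
    intro x hx
    rw [Metric.mem_ball] at hx
    have h4 : x ∈ Metric.closedBall (0 : E) (‖u‖ + 1) := by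
      rw [mem_closedBall_zero_iff]
      rw [dist_eq_norm] at hx
      have h5 := lt_of_lt_of_le hx (min_le_right _ _)
      have h6 : ‖x‖ ≤ ‖x - u i‖ + ‖u i‖ := by
        simpa using norm_add_le (x - u i) (u i)
      linarith [u.norm_coe_le_norm i]
    have h5 : u i ∈ Metric.closedBall (0 : E) (‖u‖ + 1) := by
      rw [mem_closedBall_zero_iff]
      linarith [u.norm_coe_le_norm i]
    have h6 := H x h4 (u i) h5 (lt_of_lt_of_le hx (min_le_left _ _))
    rw [dist_eq_norm] at h6
    exact h6.le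
  refine le_trans key ?_
  exact mul_le_mul_of_nonneg_left ((v - u).norm_coe_le_norm i) hε.le

end

theorem spo_contDiff (n : ℕ) : ∀ (E G : Type) [NormedAddCommGroup E] [NormedSpace ℝ E]
    [FiniteDimensional ℝ E] [NormedAddCommGroup G] [NormedSpace ℝ G] (F : E → G)
    (hF : ContDiff ℝ ∞ F), ContDiff ℝ n (spo F hF.continuous) := by
  induction n with
  | zero =>
    intro E G _ _ _ _ _ F hF
    exact contDiff_zero.2 (spo_cont F hF.continuous)
  | succ n ih =>
    intro E G _ _ _ _ _ F hF
    have hF1 : ContDiff ℝ 1 F := hF.of_le (by norm_cast)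
    have hd : ∀ u, HasFDerivAt (spo F hF.continuous) _ u := spo_deriv F hF1
    rw [show ((n + 1 : ℕ) : WithTop ℕ∞) = (n : WithTop ℕ∞) + 1 by norm_cast]
    rw [contDiff_succ_iff_fderiv]
    refine ⟨fun u => (hd u).differentiableAt, fun h => absurd h (by simp), ?_⟩
    have h1 : fderiv ℝ (spo F hF.continuous) = fun u => lam (spo (fderiv ℝ F)
        (hF1.continuous_fderiv (by norm_num)) u) := by
      funext u
      exact (hd u).fderiv
    rw [h1]
    have h2 : ContDiff ℝ ∞ (fderiv ℝ F) := hF.fderiv_right (by norm_cast)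
    exact (lam (E := E) (G := G)).contDiff.comp (ih E (E →L[ℝ] G) (fderiv ℝ F) h2)

theorem tSup : Pool.Agent.H812.Tm.GSup := by
  intro E G _ _ _ _ _ _ F hF
  have hF1 : ContDiff ℝ 1 F := hF.of_le (by norm_cast)
  refine ⟨spo F hF.continuous, ?_, fun u i => rfl, ?_⟩
  · rw [contDiff_infty]
    exact fun n => spo_contDiff n E G F hF
  · intro u h i
    rw [(spo_deriv F hF1 u).fderiv]
    rfl

end Pool.Agent.H947.Tm
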