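import Mathlib
import Pool.Agent.H85.AK.Stmt2

set_option autoImplicit false

namespace Pool.Agent.H947.AKRank

theorem s_rank : Pool.Agent.H85.AK.Stmt2.S_rank := by
  intro M _ _ _ N hsat hN
  have h1 := Submodule.finrank_quotient_add_finrank (R := ℤ) N
  have htf : Module.IsTorsionFree ℤ (M ⧸ N) := by
    rw [Module.isTorsionFree_iff_smul_eq_zero]
    intro n x hx
    obtain ⟨m, rfl⟩ := Submodule.Quotient.mk_surjective N x
    by_cases hn : n = 0
    · exact Or.inl hn
    · right
      rw [← Submodule.Quotient.mk_smul, Submodule.Quotient.mk_eq_zero] at hx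
      rw [Submodule.Quotient.mk_eq_zero]
      exact hsat n m hn hx
  have hnt : Nontrivial (M ⧸ N) := Submodule.Quotient.nontrivial_iff.2 hN
  have h2 : 0 < Module.finrank ℤ (M ⧸ N) := Module.finrank_pos
  omega

end Pool.Agent.H947.AKRank
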