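import Pool.Agent.H867.FT.Gen2
import Pool.Agent.H707.FT867PSG

/-!
Project FT (helper867), problem MP_7dd379_ag: part `S_RHO` (successive shifts over `k[[X]]`), by
helper947.
-/

set_option autoImplicit false

namespace Pool.Agent.H947.FT867

open MvPowerSeries Pool.Agent.H707.FT867

variable {k : Type} [Field k] {D : ℕ}

/-- the maximal ideal -/
noncomputable abbrev mm (k : Type) [Field k] (D : ℕ) : Ideal (MvPowerSeries (Fin D) k) :=
  IsLocalRing.maximalIdeal (MvPowerSeries (Fin D) k)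

theorem hausdorff (y : MvPowerSeries (Fin D) k) (h : ∀ j : ℕ, y ∈ mm k D ^ j) : y = 0 := by
  ext m
  have h1 := order_of_mem (m.degree + 1) y (h _)
  rw [map_zero]
  refine coeff_of_lt_order (lt_of_lt_of_le ?_ h1)
  exact_mod_cast Nat.lt_succ_self _

theorem complete (x : ℕ → MvPowerSeries (Fin D) k) (hx : ∀ j, x (j + 1) - x j ∈ mm k D ^ j) :
    ∃ y, ∀ j, y - x j ∈ mm k D ^ j := by
  have hN : ∀ i j, x (j + i) - x j ∈ mm k D ^ j := by
    intro i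
    induction i with
    | zero =>
      intro j
      rw [add_zero, sub_self]
      exact Ideal.zero_mem _
    | succ i ih =>
      intro j
      have h1 := Ideal.pow_le_pow_right (I := mm k D) (Nat.le_add_right j i) (hx (j + i))
      have h2 := Ideal.add_mem _ h1 (ih j)
      rw [sub_add_sub_cancel] at h2
      exact h2
  obtain ⟨y, hc⟩ : ∃ y : MvPowerSeries (Fin D) k,
      ∀ m, coeff m y = coeff m (x (m.degree + 1)) :=
    ⟨fun m => coeff m (x (m.degree + 1)), fun _ => rfl⟩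
  refine ⟨y, fun j => mem_pow j _ (nat_le_order fun m hm => ?_)⟩
  obtain ⟨i, rfl⟩ : ∃ i, j = (m.degree + 1) + i := ⟨j - (m.degree + 1), by omega⟩
  have h1 := order_of_mem _ _ (hN i (m.degree + 1))
  have h2 : coeff m (x (m.degree + 1 + i) - x (m.degree + 1)) = 0 := by
    refine coeff_of_lt_order (lt_of_lt_of_le ?_ h1)
    exact_mod_cast Nat.lt_succ_self _
  rw [map_sub] at h2
  rw [map_sub, hc, ← neg_sub, h2, neg_zero]

/-- a very simple Hensel lemma -/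
theorem hensel (a b d : MvPowerSeries (Fin D) k) (hd : d ∈ mm k D) :
    ∃ ξ ∈ mm k D, a * ξ ^ 3 + b * ξ ^ 2 + ξ + d = 0 := by
  obtain ⟨x, hx0, hxs⟩ : ∃ x : ℕ → MvPowerSeries (Fin D) k, x 0 = 0 ∧
      ∀ j, x (j + 1) = -(d + b * x j ^ 2 + a * x j ^ 3) :=
    ⟨fun j => Nat.rec 0 (fun _ y => -(d + b * y ^ 2 + a * y ^ 3)) j, rfl, fun _ => rfl⟩
  have hm : ∀ j, x j ∈ mm k D := by
    intro j
    induction j with
    | zero =>
      rw [hx0]
      exact Ideal.zero_mem _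
    | succ j ih =>
      rw [hxs]
      refine neg_mem (add_mem (add_mem hd ?_) ?_)
      · exact Ideal.mul_mem_left _ _ (Ideal.pow_mem_of_mem _ ih 2 (by norm_num))
      · exact Ideal.mul_mem_left _ _ (Ideal.pow_mem_of_mem _ ih 3 (by norm_num))
  have hdf : ∀ j, x (j + 1) - x j ∈ mm k D ^ (j + 1) := by
    intro j
    induction j with
    | zero =>
      rw [zero_add, pow_one]
      exact sub_mem (hm 1) (hm 0)
    | succ j ih =>
      have e : x (j + 1 + 1) - x (j + 1) = (x (j + 1) - x j) *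
          (-(b * (x (j + 1) + x j) + a * (x (j + 1) ^ 2 + x (j + 1) * x j + x j ^ 2))) := by
        rw [hxs (j + 1)]
        nth_rewrite 3 [hxs j]
        ring
      rw [e, pow_succ]
      refine Ideal.mul_mem_mul ih (neg_mem (add_mem ?_ ?_))
      · exact Ideal.mul_mem_left _ _ (add_mem (hm (j + 1)) (hm j))
      · refine Ideal.mul_mem_left _ _ (add_mem (add_mem ?_ ?_) ?_)
        · exact Ideal.pow_mem_of_mem _ (hm (j + 1)) 2 (by norm_num)
        · exact Ideal.mul_mem_left _ _ (hm j)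
        · exact Ideal.pow_mem_of_mem _ (hm j) 2 (by norm_num)
  obtain ⟨y, hy⟩ := complete x fun j => Ideal.pow_le_pow_right (Nat.le_succ j) (hdf j)
  refine ⟨y, ?_, hausdorff _ fun j => ?_⟩
  · have h1 := hy 1
    rw [pow_one] at h1
    have := add_mem h1 (hm 1)
    rwa [sub_add_cancel] at this
  · have e : a * y ^ 3 + b * y ^ 2 + y + d =
        (y - x j) * (a * (y ^ 2 + y * x j + x j ^ 2) + b * (y + x j) + 1) -
          (x (j + 1) - x j) := by
      rw [hxs j]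
      ring
    rw [e]
    refine sub_mem (Ideal.mul_mem_right _ _ (hy j)) ?_
    exact Ideal.pow_le_pow_right (Nat.le_succ j) (hdf j)

/-- **RHO.** -/
theorem rho : Pool.Agent.H867.FT.S_RHO := by
  intro k _ D a b c d z hc hz ha hb hd hF
  obtain ⟨a₁, a₂, ha'⟩ := Ideal.mem_span_pair.mp ha
  obtain ⟨b₁, b₂, hb'⟩ := Ideal.mem_span_pair.mp hb
  obtain ⟨d₁, hd₁, d₂, hd'⟩ : ∃ d₁ ∈ mm k D, ∃ d₂, d₁ * c + d₂ * z = d := by
    refine Submodule.mul_induction_on hd ?_ ?_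
    · intro m hm n hn
      obtain ⟨u, v, rfl⟩ := Ideal.mem_span_pair.mp hn
      exact ⟨m * u, Ideal.mul_mem_right _ _ hm, m * v, by ring⟩
    · rintro u v ⟨u₁, hu₁, u₂, rfl⟩ ⟨v₁, hv₁, v₂, rfl⟩
      exact ⟨u₁ + v₁, add_mem hu₁ hv₁, u₂ + v₂, by ring⟩
  by_contra hcon
  have hcon' : ∀ (ξ ρ : MvPowerSeries (Fin D) k) (m : ℕ), ξ ∈ mm k D → 1 ≤ m →
      a * ξ ^ 3 + b * ξ ^ 2 + c * ξ + d = z ^ m * ρ → ρ ∈ Ideal.span {c, z} := by
    intro ξ ρ m h1 h2 h3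
    by_contra h4
    exact hcon ⟨ξ, ρ, m, h1, h2, h4, h3⟩
  -- the step
  have step : ∀ (j : ℕ) (ξ : MvPowerSeries (Fin D) k), ξ ∈ mm k D →
      z ^ (j + 1) ∣ a * ξ ^ 3 + b * ξ ^ 2 + c * ξ + d →
      ∃ ξ' : MvPowerSeries (Fin D) k, ξ' ∈ mm k D ∧
        z ^ (j + 1 + 1) ∣ a * ξ' ^ 3 + b * ξ' ^ 2 + c * ξ' + d ∧ z ^ (j + 1) ∣ ξ' - ξ := by
    intro j ξ hξ hdv
    obtain ⟨ρ, hρ⟩ := hdv
    obtain ⟨r₀, s₀, hrs⟩ := Ideal.mem_span_pair.mp (hcon' ξ ρ (j + 1) hξ (by omega) hρ)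
    have hu : IsUnit (1 + (2 * b₁ * ξ + 3 * a₁ * ξ ^ 2)) := by
      have h1 : -(2 * b₁ * ξ + 3 * a₁ * ξ ^ 2) ∈ mm k D := by
        refine neg_mem (add_mem (Ideal.mul_mem_left _ _ hξ) ?_)
        exact Ideal.mul_mem_left _ _ (Ideal.pow_mem_of_mem _ hξ 2 (by norm_num))
      have h2 := IsLocalRing.isUnit_one_sub_self_of_mem_nonunits _
        ((IsLocalRing.mem_maximalIdeal _).mp h1)
      rwa [sub_neg_eq_add] at h2
    obtain ⟨w, hw⟩ := hu.exists_left_inv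
    -- `c = w (c_ξ - z v)`
    set v : MvPowerSeries (Fin D) k := 2 * b₂ * ξ + 3 * a₂ * ξ ^ 2 with hv
    set r := w * r₀ with hr
    refine ⟨ξ - z ^ (j + 1) * r, ?_, ?_, ?_⟩
    · exact sub_mem hξ (Ideal.mul_mem_right _ _ (Ideal.pow_mem_of_mem _ hz _ (by omega)))
    · refine ⟨(s₀ - r * v) + z ^ j * (r ^ 2 * (b + 3 * a * ξ - a * (z ^ (j + 1) * r))), ?_⟩
      have e1 : a * (ξ - z ^ (j + 1) * r) ^ 3 + b * (ξ - z ^ (j + 1) * r) ^ 2 +
          c * (ξ - z ^ (j + 1) * r) + d =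
          (a * ξ ^ 3 + b * ξ ^ 2 + c * ξ + d) -
          (c + 2 * b * ξ + 3 * a * ξ ^ 2) * (z ^ (j + 1) * r) +
          (z ^ (j + 1) * r) ^ 2 * (b + 3 * a * ξ - a * (z ^ (j + 1) * r)) := by ring
      have e2 : ρ - (c + 2 * b * ξ + 3 * a * ξ ^ 2) * r = z * (s₀ - r * v) := by
        rw [← hrs, ← ha', ← hb', hr, hv]
        linear_combination (-(r₀ * c)) * hw
      rw [e1, hρ]
      linear_combination (z ^ (j + 1)) * e2
    · exact ⟨-r, by ring⟩
  -- the start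
  obtain ⟨ξ₁, hξ₁, h₁⟩ := hensel a₁ b₁ d₁ hd₁
  have start : z ^ (0 + 1) ∣ a * ξ₁ ^ 3 + b * ξ₁ ^ 2 + c * ξ₁ + d := by
    refine ⟨a₂ * ξ₁ ^ 3 + b₂ * ξ₁ ^ 2 + d₂, ?_⟩
    rw [← ha', ← hb', ← hd']
    linear_combination c * h₁
  choose! nx hnx using step
  obtain ⟨x, hx0, hxs⟩ : ∃ x : ℕ → MvPowerSeries (Fin D) k, x 0 = ξ₁ ∧
      ∀ j, x (j + 1) = nx j (x j) :=
    ⟨fun j => Nat.rec ξ₁ (fun j y => nx j y) j, rfl, fun _ => rfl⟩
  have hall : ∀ j, x j ∈ mm k D ∧ z ^ (j + 1) ∣ a * x j ^ 3 + b * x j ^ 2 + c * x j + d := by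
    intro j
    induction j with
    | zero =>
      rw [hx0]
      exact ⟨hξ₁, start⟩
    | succ j ih =>
      have := hnx j (x j) ih.1 ih.2
      rw [hxs]
      exact ⟨this.1, this.2.1⟩
  have hz' : ∀ j : ℕ, ∀ u, z ^ (j + 1) ∣ u → u ∈ mm k D ^ j := by
    intro j u hu
    obtain ⟨s, rfl⟩ := hu
    exact Ideal.mul_mem_right _ _ (Ideal.pow_le_pow_right (Nat.le_succ j) (Ideal.pow_mem_pow hz _))
  obtain ⟨y, hy⟩ := complete x fun j => by
    rw [hxs]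
    exact hz' j _ (hnx j (x j) (hall j).1 (hall j).2).2.2
  refine hF y (hausdorff _ fun j => ?_)
  have e : a * y ^ 3 + b * y ^ 2 + c * y + d =
      (y - x j) * (a * (y ^ 2 + y * x j + x j ^ 2) + b * (y + x j) + c) +
        (a * x j ^ 3 + b * x j ^ 2 + c * x j + d) := by ring
  rw [e]
  exact add_mem (Ideal.mul_mem_right _ _ (hy j)) (hz' j _ (hall j).2)

end Pool.Agent.H947.FT867
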